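import Mathlib

/-!
# MP_59646b_lc: Borel Hedetniemi inside the shift graph, basic definitions

`Bai` is the Baire space, `Inc` the space of strictly increasing sequences of naturals (the increasing
enumerations of infinite sets), `shift` deletes the first element.
-/

namespace Pool.Agent.BH

/-- Baire space -/
abbrev Bai := ℕ → ℕ

/-- strictly increasing sequences -/
abbrev Inc := {x : ℕ → ℕ // StrictMono x}

/-- delete the first term -/
def shift (x : Inc) : Inc :=
  ⟨fun n => x.1 (n + 1), fun _ _ h => x.2 (Nat.add_lt_add_right h 1)⟩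

@[simp] lemma shift_apply (x : Inc) (n : ℕ) : (shift x).1 n = x.1 (n + 1) := rfl

/-- `x` dominates `f`: some tail of `x` bounds `f` everywhere -/
def Dom (x : Inc) (f : Bai) : Prop := ∃ k, ∀ n, f n ≤ x.1 (n + k)

/-- the first `n` values of `f` -/
def res (f : Bai) (n : ℕ) : List ℕ := (List.range n).map f

/-- the function on finite sequences coded by `f` -/
def str (f : Bai) (b : List ℕ) : ℕ := f (Encodable.encode b)

/-- pointwise pairing -/
def pairB (s h : Bai) : Bai := fun n => Nat.pair (s n) (h n)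

/-- `g` is a length preserving strategy which maps `T` into `T'` (answers to the moves in `T`) -/
def StratII (T T' : Set (List ℕ)) (g : Bai) : Prop :=
  ∀ a ∈ T, a.inits.tail.map (str g) ∈ T'

/-- `h` is a strategy for the player who moves first and has to stay in `T` as long as the other
player stays in `T'` -/
def StratI (T T' : Set (List ℕ)) (h : Bai) : Prop :=
  ∀ b ∈ T', b.inits.map (str h) ∈ T

/-- the tree coded by `p`, with three real parameters -/
def Tr (p a₁ a₂ c : Bai) : Set (List ℕ) :=
  {t | ∀ i, 0 < i → i ≤ t.length →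
    p (Encodable.encode (res a₁ i, res a₂ i, res c i, t.take i)) = 0}

/-- first family of trees -/
def T1 (a : Bai × Bai) (r : Bai) : Set (List ℕ) := Tr a.1 a.1 a.2 r

/-- second family of trees -/
def T2 (a : Bai × Bai) (s : Bai) : Set (List ℕ) := Tr a.2 a.1 a.2 s

/-- no infinite branch -/
def WF (T : Set (List ℕ)) : Prop := ¬ ∃ g : Bai, ∀ n, res g n ∈ T

/-- the first graph (vertices `(r, x)`, edges `(r, x) -- (r, shift x)`) -/
def B (a : Bai × Bai) : Set (Bai × Inc) :=
  {q | ∀ s h, StratI (T1 a q.1) (T2 a s) h → ¬ Dom q.2 (pairB s h)}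

/-- the second graph -/
def C (a : Bai × Bai) : Set (Bai × Inc) :=
  {q | ∀ r g, StratII (T1 a r) (T2 a q.1) g → ¬ Dom q.2 (pairB r g)}

/-- every forward orbit in `U` visits `A` and the complement of `A` -/
def Marks (U A : Set (Bai × Inc)) : Prop :=
  ∀ q ∈ U, (∃ n, (q.1, shift^[n] q.2) ∈ A) ∧ ∃ n, (q.1, shift^[n] q.2) ∉ A

lemma dom_shift (x : Inc) (f : Bai) : Dom (shift x) f ↔ Dom x f := by
  constructor
  · rintro ⟨k, hk⟩
    exact ⟨k + 1, fun n => by simpa [add_assoc] using hk n⟩
  · rintro ⟨k, hk⟩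
    refine ⟨k, fun n => (hk n).trans ?_⟩
    exact x.2.monotone (by simp)

lemma mem_B_shift (a : Bai × Bai) (r : Bai) (x : Inc) : (r, shift x) ∈ B a ↔ (r, x) ∈ B a := by
  simp [B, dom_shift]

lemma mem_C_shift (a : Bai × Bai) (r : Bai) (x : Inc) : (r, shift x) ∈ C a ↔ (r, x) ∈ C a := by
  simp [C, dom_shift]

end Pool.Agent.BH
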