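import Mathlib
import Pool.Agent.Helper98.BH.Defs

/-!
# MP_59646b_lc: auxiliary definitions for the modules
-/

namespace Pool.Agent.BH

/-! ### duality -/

/-- `g` is a strategy for the second player from the position `(u, v)` -/
def SII (T T' : Set (List ℕ)) (u v : List ℕ) (g : Bai) : Prop :=
  ∀ a, u ++ a ∈ T → v ++ a.inits.tail.map (str g) ∈ T'

/-- combination of strategies -/
def comb (m : ℕ → ℕ) (G : ℕ → Bai) : Bai := fun j =>
  match (Encodable.decode j : Option (List ℕ)) with
  | some (n :: a) => if a = [] then m n else str (G n) a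
  | _ => 0

/-- the moves of the first player against the moves `b`, if he follows `N` -/
def movesI (N : List ℕ → List ℕ → ℕ) (b : List ℕ) : List ℕ :=
  (b.foldl (fun p m => (p.1 ++ [N p.1 p.2], p.2 ++ [m])) (([] : List ℕ), ([] : List ℕ))).1

/-- the strategy of the first player given by `N` -/
def psi (N : List ℕ → List ℕ → ℕ) : Bai := fun j =>
  match (Encodable.decode j : Option (List ℕ)) with
  | some b => N (movesI N b) b
  | none => 0

/-! ### Ellentuck neighbourhoods -/

/-- the part of `A` above `s` -/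
def above (s : Finset ℕ) (A : Set ℕ) : Set ℕ := {n | n ∈ A ∧ ∀ m ∈ s, m < n}

/-- infinite sets with initial segment `s` and the other elements in `A` -/
def Bas (s : Finset ℕ) (A : Set ℕ) : Set (Set ℕ) :=
  {X | X.Infinite ∧ (s : Set ℕ) ⊆ X ∧ X \ s ⊆ above s A}

/-- `t` is an initial segment of `X` -/
def Init (t : Finset ℕ) (X : Set ℕ) : Prop := (t : Set ℕ) ⊆ X ∧ X \ t ⊆ above t Set.univ

/-- completely Ramsey sets -/
def CR (M : Set (Set ℕ)) : Prop :=
  ∀ (s : Finset ℕ) (A : Set ℕ), A.Infinite →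
    ∃ B ⊆ A, B.Infinite ∧ ((∀ X ∈ Bas s B, X ∈ M) ∨ ∀ X ∈ Bas s B, X ∉ M)

/-! ### Borel codes -/

/-- label of the node `t` -/
def lab (c : Bai) (t : List ℕ) : ℕ := c (Encodable.encode t)

/-- `c` is not a code: there is an infinite path whose nodes have eventually label `0` -/
def Invalid : Set Bai := {c | ∃ (β : Bai) (k : ℕ), ∀ n, k ≤ n → lab c (res β n) = 0}

/-- `e` is an evaluation of the code `c` at `z` -/
def Ev {Z : Type} (O : ℕ → Set Z) (c : Bai) (z : Z) (e : Bai) : Prop :=
  ∀ t : List ℕ, (∀ m, lab c t = m + 1 → (str e t = 1 ↔ z ∈ O m)) ∧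
    (lab c t = 0 → (str e t = 1 ↔ ∀ n, str e (t ++ [n]) ≠ 1))

end Pool.Agent.BH
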