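import Mathlib

/-!
# MP_59646b_lc: Borel chromatic numbers, the shift graph and its Borel subgraphs
-/

namespace Pool.Agent.BH

/-- The space of infinite subsets of the natural numbers (given by their characteristic functions),
with the topology inherited from the Cantor space. -/
abbrev InfSet := {x : ℕ → Bool // {n | x n = true}.Infinite}

/-- `y` is obtained from `x` by deleting the least element of `x`. -/
def IsDel (x y : InfSet) : Prop :=
  ∃ m, IsLeast {n | x.1 n = true} m ∧ {n | y.1 n = true} = {n | x.1 n = true} \ {m}

/-- The edge relation of the shift graph. -/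
def ShiftAdj (x y : InfSet) : Prop := IsDel x y ∨ IsDel y x

/-- The Borel chromatic number of a graph `adj` on `V`: the least cardinality of a Polish space `Z`
for which there is a Borel map `c : V → Z` with `c x ≠ c y` whenever `x` and `y` are adjacent. -/
noncomputable def borelChrom {V : Type} [MeasurableSpace V] (adj : V → V → Prop) : Cardinal :=
  sInf {κ | ∃ (Z : Type) (_ : TopologicalSpace Z) (_ : PolishSpace Z) (_ : MeasurableSpace Z)
    (_ : BorelSpace Z) (c : V → Z), Measurable c ∧ (∀ x y, adj x y → c x ≠ c y) ∧
      Cardinal.mk Z = κ}

/-- A Borel subgraph of the shift graph: a Borel set of vertices and a Borel symmetric set of edges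
of the shift graph between these vertices. -/
structure ShiftSubgraph where
  /-- the vertex set -/
  verts : Set InfSet
  /-- the edge set -/
  edges : Set (InfSet × InfSet)
  measurableSet_verts : MeasurableSet verts
  measurableSet_edges : MeasurableSet edges
  symm : ∀ x y, (x, y) ∈ edges → (y, x) ∈ edges
  sub : ∀ x y, (x, y) ∈ edges → x ∈ verts ∧ y ∈ verts ∧ ShiftAdj x y

/-- The edge relation of a subgraph, on its vertex set. -/
def ShiftSubgraph.Adj (G : ShiftSubgraph) (x y : G.verts) : Prop := ((x : InfSet), (y : InfSet)) ∈ G.edges

/-- The (categorical) product of two graphs. -/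
def prodAdj {V W : Type} (adj : V → V → Prop) (adj' : W → W → Prop) (p q : V × W) : Prop :=
  adj p.1 q.1 ∧ adj' p.2 q.2

end Pool.Agent.BH
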