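import Mathlib
import Pool.Agent.Helper98.BH.Graph

/-!
# MP_59646b_lc: induced subgraphs of the shift graph and the colouring by the minimum
-/

namespace Pool.Agent.BH

open MeasureTheory

lemma isDel_iff (x y : InfSet) : IsDel x y ↔ ∃ m, (x.1 m = true ∧ ∀ k < m, x.1 k = false) ∧
    ∀ n, (y.1 n = true ↔ (x.1 n = true ∧ n ≠ m)) := by
  constructor
  · rintro ⟨m, hm, hy⟩
    refine ⟨m, ⟨hm.1, fun k hk => ?_⟩, fun n => ?_⟩
    · by_contra hcon
      have : x.1 k = true := by simpa using hcon
      exact absurd (hm.2 this) (not_le.mpr hk)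
    · have := Set.ext_iff.mp hy n
      simpa using this
  · rintro ⟨m, ⟨hm, hk⟩, hy⟩
    refine ⟨m, ⟨hm, fun k hk2 => ?_⟩, ?_⟩
    · by_contra hcon
      have h1 := hk k (not_le.mp hcon)
      have h2 : x.1 k = true := hk2
      rw [h1] at h2
      exact absurd h2 (by simp)
    · ext n
      simpa using hy n

lemma measurable_val (n : ℕ) : Measurable fun x : InfSet => x.1 n :=
  (measurable_pi_apply n).comp measurable_subtype_coe

lemma measurableSet_isDel : MeasurableSet {p : InfSet × InfSet | IsDel p.1 p.2} := by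
  have h1 : ∀ n, Measurable fun p : InfSet × InfSet => p.1.1 n := fun n =>
    (measurable_val n).comp measurable_fst
  have h2 : ∀ n, Measurable fun p : InfSet × InfSet => p.2.1 n := fun n =>
    (measurable_val n).comp measurable_snd
  have e : {p : InfSet × InfSet | IsDel p.1 p.2} = ⋃ m, (({p : InfSet × InfSet | p.1.1 m = true} ∩
      ⋂ k ∈ Set.Iio m, {p : InfSet × InfSet | p.1.1 k = false}) ∩
      ⋂ n, {p : InfSet × InfSet | (p.2.1 n = true ↔ (p.1.1 n = true ∧ n ≠ m))}) := by
    ext p
    simp only [Set.mem_iUnion, Set.mem_inter_iff, Set.mem_iInter, Set.mem_Iio]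
    exact isDel_iff p.1 p.2
  rw [e]
  refine MeasurableSet.iUnion fun m => MeasurableSet.inter (MeasurableSet.inter ?_ ?_) ?_
  · exact h1 m (measurableSet_singleton true)
  · exact MeasurableSet.biInter (Set.to_countable _) fun k _ =>
      h1 k (measurableSet_singleton false)
  · refine MeasurableSet.iInter fun n => ?_
    have h3 : Measurable fun p : InfSet × InfSet => (p.2.1 n, p.1.1 n) := (h2 n).prodMk (h1 n)
    exact h3 (Set.to_countable {q : Bool × Bool | (q.1 = true ↔ (q.2 = true ∧ n ≠ m))}).measurableSet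

lemma shiftAdj_symm {x y : InfSet} (h : ShiftAdj x y) : ShiftAdj y x := Or.symm h

lemma measurableSet_shiftAdj : MeasurableSet {p : InfSet × InfSet | ShiftAdj p.1 p.2} := by
  have h := measurableSet_isDel
  have h' : MeasurableSet {p : InfSet × InfSet | IsDel p.2 p.1} :=
    (measurable_snd.prodMk measurable_fst) h
  exact h.union h'

/-- the induced subgraph on a Borel set -/
theorem exists_induced (U : Set InfSet) (hU : MeasurableSet U) :
    ∃ G : ShiftSubgraph, G.verts = U ∧ G.edges = {p | p.1 ∈ U ∧ p.2 ∈ U ∧ ShiftAdj p.1 p.2} := by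
  refine ⟨⟨U, {p | p.1 ∈ U ∧ p.2 ∈ U ∧ ShiftAdj p.1 p.2}, hU, ?_, ?_, ?_⟩, rfl, rfl⟩
  · exact (measurable_fst hU).inter ((measurable_snd hU).inter measurableSet_shiftAdj)
  · rintro x y ⟨h1, h2, h3⟩
    exact ⟨h2, h1, shiftAdj_symm h3⟩
  · rintro x y ⟨h1, h2, h3⟩
    exact ⟨h1, h2, h3⟩

theorem isDel_unique (x y y' : InfSet) (h : IsDel x y) (h' : IsDel x y') : y = y' := by
  obtain ⟨m, hm, hy⟩ := h
  obtain ⟨m', hm', hy'⟩ := h'
  have e : m = m' := hm.unique hm'
  subst e
  have e2 : {n | y.1 n = true} = {n | y'.1 n = true} := hy.trans hy'.symm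
  apply Subtype.ext
  funext n
  have := Set.ext_iff.mp e2 n
  have h3 : y.1 n = true ↔ y'.1 n = true := this
  exact Bool.eq_iff_iff.mpr h3

/-- the shift graph has a Borel colouring with natural numbers -/
theorem exists_nat_colouring : ∃ c : InfSet → ℕ, Measurable c ∧
    ∀ x y, ShiftAdj x y → c x ≠ c y := by
  classical
  have hne : ∀ x : InfSet, ∃ n, x.1 n = true := fun x => x.2.nonempty
  refine ⟨fun x => Nat.find (hne x), ?_, ?_⟩
  · exact measurable_find hne fun k => measurable_val k (measurableSet_singleton true)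
  · have key : ∀ x y, IsDel x y → Nat.find (hne x) ≠ Nat.find (hne y) := by
      intro x y h hcon
      obtain ⟨m, ⟨hm, hk⟩, hy⟩ := (isDel_iff x y).mp h
      have h1 : Nat.find (hne x) = m := by
        rw [Nat.find_eq_iff]
        exact ⟨hm, fun k hk2 => by simp [hk k hk2]⟩
      have h2 := Nat.find_spec (hne y)
      rw [← hcon, h1] at h2
      exact ((hy m).mp h2).2 rfl
    rintro x y (h | h)
    · exact key x y h
    · exact (key y x h).symm

end Pool.Agent.BH
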