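import Mathlib
import Pool.Agent.Helper98.BH.Defs

/-!
# MP_59646b_lc: the space of strictly increasing sequences is standard Borel
-/

namespace Pool.Agent.BH

lemma inc_setOf_eq : {x : ℕ → ℕ | StrictMono x} = ⋂ n, {x : ℕ → ℕ | x n < x (n + 1)} := by
  ext x
  simp only [Set.mem_iInter]
  exact ⟨fun h n => h (Nat.lt_succ_self n), fun h => strictMono_nat_of_lt_succ h⟩

lemma inc_isClosed : IsClosed {x : ℕ → ℕ | StrictMono x} := by
  rw [inc_setOf_eq]
  refine isClosed_iInter fun n => ?_
  have h1 : Continuous fun x : ℕ → ℕ => (x n, x (n + 1)) :=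
    (continuous_apply n).prodMk (continuous_apply (n + 1))
  exact (isClosed_discrete {p : ℕ × ℕ | p.1 < p.2}).preimage h1

instance inc_standardBorel : StandardBorelSpace Inc :=
  inc_isClosed.measurableSet.standardBorel

lemma measurable_shift : Measurable shift := by
  have h : Measurable fun x : Inc => fun n => x.1 (n + 1) :=
    measurable_pi_lambda _ fun n => (measurable_pi_apply (n + 1)).comp measurable_subtype_coe
  exact Measurable.subtype_mk h

end Pool.Agent.BH
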