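import Mathlib
import Pool.Agent.Helper98.BH.Defs
import Pool.Agent.Helper98.BH.Defs2
import Pool.Agent.Helper98.BH.Graph
import Pool.Agent.Helper98.BH.Inst
import Pool.Agent.Helper98.BH.Induced
import Pool.Agent.Helper16.BH.Fusion
import Pool.Agent.Helper16.BH.GP
import Pool.Agent.Helper19.BH.Sel
import Pool.Agent.Helper19.BH.MeasBC
import Pool.Agent.Helper22.BH.Comb
import Pool.Agent.Helper25.BH.Enc
import Pool.Agent.Helper4.BH.Chain
import Pool.Agent.Helper4.BH.Union
import Pool.Agent.Helper72.BH.Tree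
import Pool.Agent.Helper72.BH.Fix
import Pool.Agent.Helper95.BH.CROpen
import Pool.Agent.Helper95.BH.Codes

/-!
# MP_59646b_lc: the modules put together
-/

namespace Pool.Agent.BH

open MeasureTheory

theorem CR_open_all (D : Finset ℕ → Prop) : CR {X | ∃ t, Init t X ∧ D t} :=
  CR_open_of_fusion fusion D

theorem CR_iUnion_all (M : ℕ → Set (Set ℕ)) (h : ∀ i, CR (M i)) : CR (⋃ i, M i) :=
  CR_iUnion_of fusion CR_open_all M h

/-- Galvin-Prikry theorem for Borel sets of strictly increasing sequences -/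
theorem galvin_prikry (A : Set Inc) (hA : MeasurableSet A) :
    ∃ H : Inc, (∀ x : Inc, Set.range x.1 ⊆ Set.range H.1 → x ∈ A) ∨
      (∀ x : Inc, Set.range x.1 ⊆ Set.range H.1 → x ∉ A) :=
  galvin_prikry_of CR_open_all CR_iUnion_all A hA

end Pool.Agent.BH
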