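import Mathlib
import Pool.Agent.Helper98.BH.Defs
import Pool.Agent.Helper98.BH.Inst
import Pool.Agent.Helper69.BH.Blocks
import Pool.Agent.Helper69.BH.Marks

/-!
# MP_59646b_lc: a Borel 3-colouring of an orbit from a function which is not dominated
-/

namespace Pool.Agent.BH

open MeasureTheory

theorem exists_col : ∃ col : Bai × Inc → Fin 3, Measurable col ∧
    ∀ m x, ¬ Dom x m → col (m, x) ≠ col (m, shift x) := by
  obtain ⟨A, hA, h⟩ := exists_blocks
  obtain ⟨col, hcol, h2⟩ := col_of_marks (fun p : Bai × Inc => (p.1, shift p.2))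
    (measurable_fst.prodMk (measurable_shift.comp measurable_snd)) A hA
  have key : ∀ k (m : Bai) (x : Inc), (fun p : Bai × Inc => (p.1, shift p.2))^[k] (m, x) =
      (m, shift^[k] x) := by
    intro k
    induction k with
    | zero => intro m x; rfl
    | succ k ih => intro m x; rw [Function.iterate_succ_apply, ih, Function.iterate_succ_apply]
  refine ⟨col, hcol, fun m x hx => ?_⟩
  refine h2 (m, x) (fun n => ?_) (fun n => ?_)
  · obtain ⟨k, hk, hk2⟩ := (h m x hx).1 n
    exact ⟨k, hk, by rw [key]; exact hk2⟩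
  · obtain ⟨k, hk, hk2⟩ := (h m x hx).2 n
    exact ⟨k, hk, by rw [key]; exact hk2⟩

end Pool.Agent.BH
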