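import Mathlib
import Pool.Agent.Helper98.BH.All

namespace Pool.Agent.BH

open MeasureTheory

theorem exists_fix : ∃ a : Bai × Bai,
    (∀ A : Set (Bai × Inc), MeasurableSet A → Marks (B a) A → ∃ c, WF (T1 a c)) ∧
    (∀ A : Set (Bai × Inc), MeasurableSet A → Marks (C a) A → ∃ c, WF (T2 a c)) ∧
    (∀ c, WF (T1 a c) → ∃ A : Set Inc, MeasurableSet A ∧
      ∀ x, (c, x) ∈ B a → (∃ n, shift^[n] x ∈ A) ∧ ∃ n, shift^[n] x ∉ A) ∧
    (∀ c, WF (T2 a c) → ∃ A : Set Inc, MeasurableSet A ∧
      ∀ x, (c, x) ∈ C a → (∃ n, shift^[n] x ∈ A) ∧ ∃ n, shift^[n] x ∉ A) :=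
  exists_fix_of (by
    haveI : PolishSpace (Bai × Inc) := polish_prod Bai Inc
    haveI : BorelSpace (Bai × Inc) := borel_prod Bai Inc
    exact exists_coding (Bai × Inc)) measurableSet_B measurableSet_C

lemma range_shift_iterate (x : Inc) (n : ℕ) : Set.range (shift^[n] x).1 ⊆ Set.range x.1 := by
  induction n generalizing x with
  | zero => exact subset_rfl
  | succ n ih =>
    rw [Function.iterate_succ_apply]
    refine (ih (shift x)).trans ?_
    rintro _ ⟨m, rfl⟩
    exact ⟨m + 1, rfl⟩

/-- no Borel set is met and left by all forward orbits in the shift graph -/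
lemma no_marker (A : Set Inc) (hA : MeasurableSet A)
    (h : ∀ x : Inc, (∃ n, shift^[n] x ∈ A) ∧ ∃ n, shift^[n] x ∉ A) : False := by
  obtain ⟨H, hH | hH⟩ := galvin_prikry A hA
  · obtain ⟨n, hn⟩ := (h H).2
    exact hn (hH _ (range_shift_iterate H n))
  · obtain ⟨n, hn⟩ := (h H).1
    exact hH _ (range_shift_iterate H n) hn

/-- the two graphs have no Borel marker sets -/
theorem exists_not_marks : ∃ a : Bai × Bai,
    (∀ A : Set (Bai × Inc), MeasurableSet A → ¬ Marks (B a) A) ∧
    (∀ A : Set (Bai × Inc), MeasurableSet A → ¬ Marks (C a) A) := by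
  obtain ⟨a, h1, h2, h3, h4⟩ := exists_fix
  have key : ¬ ((∃ c, WF (T1 a c)) ∨ ∃ c, WF (T2 a c)) := by
    intro h
    rcases chain a h with ⟨c, hc, hx⟩ | ⟨c, hc, hx⟩
    · obtain ⟨A, hA, hA2⟩ := h3 c hc
      exact no_marker A hA fun x => hA2 x (hx x)
    · obtain ⟨A, hA, hA2⟩ := h4 c hc
      exact no_marker A hA fun x => hA2 x (hx x)
  exact ⟨a, fun A hA hm => key (Or.inl (h1 A hA hm)), fun A hA hm => key (Or.inr (h2 A hA hm))⟩

/-- from a finite colouring to a marker set -/
theorem marks_of_colouring (U : Set (Bai × Inc))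
    (hinv : ∀ r x, (r, x) ∈ U → (r, shift x) ∈ U) (k : ℕ) (c : Bai × Inc → Fin k)
    (hc : Measurable c) (hc2 : ∀ r x, (r, x) ∈ U → c (r, x) ≠ c (r, shift x)) :
    ∃ A : Set (Bai × Inc), MeasurableSet A ∧ Marks U A := by
  have hs : Measurable fun q : Bai × Inc => (q.1, shift q.2) :=
    measurable_fst.prodMk (measurable_shift.comp measurable_snd)
  refine ⟨{q | c q < c (q.1, shift q.2)}, ?_, ?_⟩
  · exact measurableSet_lt hc (hc.comp hs)
  · rintro ⟨r, x⟩ hx
    have hmem : ∀ n, (r, shift^[n] x) ∈ U := by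
      intro n
      induction n with
      | zero => exact hx
      | succ n ih => rw [Function.iterate_succ_apply']; exact hinv _ _ ih
    have hne : ∀ n, c (r, shift^[n] x) ≠ c (r, shift^[n + 1] x) := fun n => by
      rw [Function.iterate_succ_apply']; exact hc2 _ _ (hmem n)
    constructor
    · by_contra hcon
      push Not at hcon
      have hanti : StrictAnti fun n => c (r, shift^[n] x) := by
        refine strictAnti_nat_of_succ_lt fun n => ?_
        have h1 : ¬ c (r, shift^[n] x) < c (r, shift (shift^[n] x)) := hcon n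
        rw [← Function.iterate_succ_apply' shift n x] at h1
        exact lt_of_le_of_ne (not_lt.mp h1) (hne n).symm
      exact not_injective_infinite_finite _ hanti.injective
    · by_contra hcon
      push Not at hcon
      have hmono : StrictMono fun n => c (r, shift^[n] x) := by
        refine strictMono_nat_of_lt_succ fun n => ?_
        have h1 : c (r, shift^[n] x) < c (r, shift (shift^[n] x)) := hcon n
        rwa [← Function.iterate_succ_apply' shift n x] at h1
      exact not_injective_infinite_finite _ hmono.injective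

end Pool.Agent.BH
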