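import Mathlib
import Pool.Agent.Helper98.BH.All
import Pool.Agent.Helper98.BH.Col
import Pool.Agent.Helper32.BH.Duality

namespace Pool.Agent.BH

open MeasureTheory

lemma dom_of_le {x : Inc} {f g : Bai} (h : ∀ n, f n ≤ g n) (hg : Dom x g) : Dom x f := by
  obtain ⟨k, hk⟩ := hg
  exact ⟨k, fun n => (h n).trans (hk n)⟩

lemma le_pairB_right (s h : Bai) (n : ℕ) : h n ≤ pairB s h n := Nat.right_le_pair _ _

lemma measurable_pairB : Measurable fun p : Bai × Bai => pairB p.1 p.2 := by
  refine measurable_pi_lambda _ fun n => ?_
  have h1 : Measurable fun p : Bai × Bai => (p.1 n, p.2 n) :=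
    ((measurable_pi_apply n).comp measurable_fst).prodMk
      ((measurable_pi_apply n).comp measurable_snd)
  exact (measurable_of_countable (fun q : ℕ × ℕ => Nat.pair q.1 q.2)).comp h1

/-- the product of the two row graphs has a Borel 3-colouring -/
theorem product_colouring (a : Bai × Bai) :
    ∃ col : (Bai × Inc) × (Bai × Inc) → Fin 3, Measurable col ∧
      ∀ r x s y, (r, x) ∈ B a → (s, y) ∈ C a →
        col ((r, x), (s, y)) ≠ col ((r, shift x), (s, shift y)) ∧
        col ((r, x), (s, shift y)) ≠ col ((r, shift x), (s, y)) := by
  classical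
  obtain ⟨side, M, hside, hM, iside, iM, hdual⟩ := duality (W := Bai × Bai)
    (fun w => T1 a w.1) (fun w => T2 a w.2)
    (fun t => by
      have h := measurableSet_Tr t
      exact (measurable_const.prodMk (measurable_const.prodMk
        (measurable_const.prodMk measurable_fst))) h)
    (fun t => by
      have h := measurableSet_Tr t
      exact (measurable_const.prodMk (measurable_const.prodMk
        (measurable_const.prodMk measurable_snd))) h)
    (fun w t t' h h' => Tr_prefix _ _ _ _ t t' h h') (fun w t t' h h' => Tr_prefix _ _ _ _ t t' h h')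
    (fun w => nil_mem_Tr _ _ _ _) (fun w => nil_mem_Tr _ _ _ _)
  obtain ⟨col, hcol, hcol2⟩ := exists_col
  -- the parameters
  let par : (Bai × Inc) × (Bai × Inc) → (Bai × Bai) × Inc := fun q => ((q.1.1, q.2.1), q.1.2)
  have hpar : Measurable par :=
    (((measurable_fst.comp measurable_fst).prodMk (measurable_fst.comp measurable_snd))).prodMk
      (measurable_snd.comp measurable_fst)
  let mk1 : (Bai × Inc) × (Bai × Inc) → Bai × Inc := fun q => (pairB q.1.1 (M (par q)), q.2.2)
  let mk2 : (Bai × Inc) × (Bai × Inc) → Bai × Inc := fun q => (pairB q.2.1 (M (par q)), q.1.2)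
  have hmk1 : Measurable mk1 :=
    (measurable_pairB.comp ((measurable_fst.comp measurable_fst).prodMk (hM.comp hpar))).prodMk
      (measurable_snd.comp measurable_snd)
  have hmk2 : Measurable mk2 :=
    (measurable_pairB.comp ((measurable_fst.comp measurable_snd).prodMk (hM.comp hpar))).prodMk
      (measurable_snd.comp measurable_fst)
  refine ⟨fun q => if side (par q) = true then col (mk1 q) else col (mk2 q), ?_, ?_⟩
  · refine Measurable.ite ?_ (hcol.comp hmk1) (hcol.comp hmk2)
    exact (hside.comp hpar) (measurableSet_singleton true)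
  · intro r x s y hx hy
    have hd := hdual (r, s) x
    have h1 : side ((r, s), shift x) = side ((r, s), x) := iside (r, s) x
    have h2 : M ((r, s), shift x) = M ((r, s), x) := iM (r, s) x
    simp only [par, mk1, mk2, h1, h2]
    by_cases hs : side ((r, s), x) = true
    · simp only [hs, if_true]
      have hII := hd.1 hs
      have hnd : ¬ Dom y (pairB r (M ((r, s), x))) := hy r _ hII
      have := hcol2 _ _ hnd
      exact ⟨this, fun h => this h.symm⟩
    · simp only [hs]
      have hs' : side ((r, s), x) = false := by simpa using hs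
      have hnd : ¬ Dom x (pairB s (M ((r, s), x))) := by
        rcases hd.2 hs' with h | h
        · exact fun hD => h (dom_of_le (le_pairB_right s _) hD)
        · exact hx s _ h
      have := hcol2 _ _ hnd
      exact ⟨this, this⟩

end Pool.Agent.BH
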