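import Mathlib
import Pool.Agent.Helper98.BH.Prod
import Pool.Agent.Helper98.BH.Non

namespace Pool.Agent.BH

open MeasureTheory

/-- a subgraph is induced -/
def ShiftSubgraph.IsInduced (G : ShiftSubgraph) : Prop :=
  G.edges = {p | p.1 ∈ G.verts ∧ p.2 ∈ G.verts ∧ ShiftAdj p.1 p.2}

lemma borelChrom_le_aleph0 (G : ShiftSubgraph) : borelChrom G.Adj ≤ Cardinal.aleph0 := by
  obtain ⟨c, hc, hc2⟩ := exists_nat_colouring
  refine csInf_le' ⟨ℕ, inferInstance, inferInstance, inferInstance, inferInstance,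
    fun x => c x.1, hc.comp measurable_subtype_coe, ?_, ?_⟩
  · intro x y h
    exact hc2 _ _ (G.sub _ _ h).2.2
  · simp

lemma aleph0_le_borelChrom (U : Set (Bai × Inc)) (hU : MeasurableSet U)
    (hinv : ∀ r x, (r, x) ∈ U → (r, shift x) ∈ U)
    (hno : ∀ A : Set (Bai × Inc), MeasurableSet A → ¬ Marks U A)
    (enc : Bai × Inc → InfSet) (henc : Measurable enc)
    (hdel : ∀ r x, IsDel (enc (r, x)) (enc (r, shift x))) (G : ShiftSubgraph)
    (hG : G.verts = enc '' U) (hind : G.IsInduced) : Cardinal.aleph0 ≤ borelChrom G.Adj := by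
  classical
  obtain ⟨c0, hc0, hc02⟩ := exists_nat_colouring
  refine le_csInf ⟨_, ℕ, inferInstance, inferInstance, inferInstance, inferInstance,
    fun x => c0 x.1, hc0.comp measurable_subtype_coe, fun x y h => hc02 _ _ (G.sub _ _ h).2.2,
    rfl⟩ ?_
  rintro κ ⟨Z, _, _, _, _, c, hc, hcc, rfl⟩
  by_contra hlt
  rw [not_le, Cardinal.lt_aleph0_iff_finite] at hlt
  obtain ⟨k, ⟨e⟩⟩ := Finite.exists_equiv_fin Z
  have hmem : ∀ q ∈ U, enc q ∈ G.verts := fun q hq => by rw [hG]; exact ⟨q, hq, rfl⟩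
  let c1 : U → Fin (k + 1) := fun q => (e (c ⟨enc q.1, hmem q.1 q.2⟩)).castSucc
  have hc1 : Measurable c1 := by
    have h1 : Measurable fun q : U => c ⟨enc q.1, hmem q.1 q.2⟩ :=
      hc.comp (Measurable.subtype_mk (henc.comp measurable_subtype_coe))
    exact (measurable_of_countable fun z : Z => (e z).castSucc).comp h1
  let c2 : Bai × Inc → Fin (k + 1) := fun q => if hq : q ∈ U then c1 ⟨q, hq⟩ else 0
  have hc2 : Measurable c2 := by
    have := Measurable.dite (s := U) hc1 (g := fun _ => (0 : Fin (k + 1))) measurable_const hU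
    exact this
  obtain ⟨A, hA, hm⟩ := marks_of_colouring U hinv (k + 1) c2 hc2 (by
    intro r x hx hcon
    have hx' := hinv r x hx
    have h1 : c2 (r, x) = c1 ⟨(r, x), hx⟩ := dif_pos hx
    have h2 : c2 (r, shift x) = c1 ⟨(r, shift x), hx'⟩ := dif_pos hx'
    rw [h1, h2] at hcon
    have h3 := e.injective (Fin.castSucc_injective _ hcon)
    refine hcc _ _ ?_ h3
    have hG2 : G.edges = _ := hind
    show ((_ : InfSet), (_ : InfSet)) ∈ G.edges
    rw [hG2]
    exact ⟨hmem _ hx, hmem _ hx', Or.inl (hdel r x)⟩)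
  exact hno A hA hm

lemma prod_le_three (U V : Set (Bai × Inc)) (enc : Bai × Inc → InfSet) (henc : Measurable enc)
    (hinj : Function.Injective enc) (hdel : ∀ r x, IsDel (enc (r, x)) (enc (r, shift x)))
    (G H : ShiftSubgraph) (hG : G.verts = enc '' U) (hH : H.verts = enc '' V)
    (col : (Bai × Inc) × (Bai × Inc) → Fin 3) (hcol : Measurable col)
    (hcc : ∀ r x s y, (r, x) ∈ U → (s, y) ∈ V →
        col ((r, x), (s, y)) ≠ col ((r, shift x), (s, shift y)) ∧
        col ((r, x), (s, shift y)) ≠ col ((r, shift x), (s, y))) :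
    borelChrom (prodAdj G.Adj H.Adj) ≤ 3 := by
  classical
  have hemb : MeasurableEmbedding enc := henc.measurableEmbedding hinj
  have hne : Nonempty (Bai × Inc) := ⟨(fun _ => 0, ⟨fun n => n, strictMono_id⟩)⟩
  let dec : InfSet → Bai × Inc := Function.extend enc id (fun _ => hne.some)
  have hdec : Measurable dec := hemb.measurable_extend measurable_id measurable_const
  have hdec2 : ∀ q, dec (enc q) = q := fun q => hinj.extend_apply _ _ q
  have hstep : ∀ q q' : Bai × Inc, IsDel (enc q) (enc q') → q' = (q.1, shift q.2) := by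
    rintro ⟨r, x⟩ q' h
    exact hinj (isDel_unique _ _ _ h (hdel r x))
  have h3 : Cardinal.mk (Fin 3) = 3 := by simp
  rw [← h3]
  refine csInf_le' ⟨Fin 3, inferInstance, inferInstance, inferInstance, inferInstance,
    fun p => col (dec p.1.1, dec p.2.1), ?_, ?_, rfl⟩
  · exact hcol.comp ((hdec.comp (measurable_subtype_coe.comp measurable_fst)).prodMk
      (hdec.comp (measurable_subtype_coe.comp measurable_snd)))
  · rintro ⟨⟨z, hz⟩, ⟨w, hw⟩⟩ ⟨⟨z', hz'⟩, ⟨w', hw'⟩⟩ ⟨h1, h2⟩
    have a1 : ShiftAdj z z' := (G.sub _ _ h1).2.2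
    have a2 : ShiftAdj w w' := (H.sub _ _ h2).2.2
    rw [hG] at hz hz'
    rw [hH] at hw hw'
    obtain ⟨⟨r, x⟩, hq, rfl⟩ := hz
    obtain ⟨⟨r', x'⟩, hq', rfl⟩ := hz'
    obtain ⟨⟨s, y⟩, hp, rfl⟩ := hw
    obtain ⟨⟨s', y'⟩, hp', rfl⟩ := hw'
    simp only [hdec2]
    rcases a1 with a1 | a1 <;> rcases a2 with a2 | a2
    · have e1 := hstep _ _ a1
      have e2 := hstep _ _ a2
      simp only at e1 e2
      rw [e1, e2]
      exact (hcc r x s y hq hp).1
    · have e1 := hstep _ _ a1
      have e2 := hstep _ _ a2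
      simp only at e1 e2
      rw [e1, e2]
      exact (hcc r x s' y' hq hp').2
    · have e1 := hstep _ _ a1
      have e2 := hstep _ _ a2
      simp only at e1 e2
      rw [e1, e2]
      exact fun h => (hcc r' x' s y hq' hp).2 h.symm
    · have e1 := hstep _ _ a1
      have e2 := hstep _ _ a2
      simp only at e1 e2
      rw [e1, e2]
      exact fun h => (hcc r' x' s' y' hq' hp').1 h.symm

theorem final : ∃ G H : ShiftSubgraph, G.IsInduced ∧ H.IsInduced ∧
    borelChrom G.Adj = Cardinal.aleph0 ∧ borelChrom H.Adj = Cardinal.aleph0 ∧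
    borelChrom (prodAdj G.Adj H.Adj) ≤ 3 ∧
    borelChrom (prodAdj G.Adj H.Adj) < min (borelChrom G.Adj) (borelChrom H.Adj) := by
  obtain ⟨a, hB, hC⟩ := exists_not_marks
  obtain ⟨col, hcol, hcc⟩ := product_colouring a
  obtain ⟨enc, henc, hinj, hdel⟩ := exists_enc
  have hemb : MeasurableEmbedding enc := henc.measurableEmbedding hinj
  have mB : MeasurableSet (B a) :=
    (measurable_const.prodMk measurable_id : Measurable fun q : Bai × Inc => (a, q)) measurableSet_B
  have mC : MeasurableSet (C a) :=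
    (measurable_const.prodMk measurable_id : Measurable fun q : Bai × Inc => (a, q)) measurableSet_C
  obtain ⟨G, hG1, hG2⟩ := exists_induced (enc '' B a) (hemb.measurableSet_image.mpr mB)
  obtain ⟨H, hH1, hH2⟩ := exists_induced (enc '' C a) (hemb.measurableSet_image.mpr mC)
  have iG : G.IsInduced := by rw [ShiftSubgraph.IsInduced, hG1]; exact hG2
  have iH : H.IsInduced := by rw [ShiftSubgraph.IsInduced, hH1]; exact hH2
  have gG : borelChrom G.Adj = Cardinal.aleph0 := le_antisymm (borelChrom_le_aleph0 G)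
    (aleph0_le_borelChrom (B a) mB (fun r x h => (mem_B_shift a r x).mpr h) hB enc henc hdel G hG1 iG)
  have gH : borelChrom H.Adj = Cardinal.aleph0 := le_antisymm (borelChrom_le_aleph0 H)
    (aleph0_le_borelChrom (C a) mC (fun r x h => (mem_C_shift a r x).mpr h) hC enc henc hdel H hH1 iH)
  have g3 := prod_le_three (B a) (C a) enc henc hinj hdel G H hG1 hH1 col hcol hcc
  refine ⟨G, H, iG, iH, gG, gH, g3, ?_⟩
  rw [gG, gH, min_self]
  exact g3.trans_lt (by exact_mod_cast Cardinal.natCast_lt_aleph0 (n := 3))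

end Pool.Agent.BH
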